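import Pool.Agent.H.MP_a38e10_co.A

set_option autoImplicit false

namespace Pool.Agent.Results.MP_a38e10_co.Gap

open Pool.Agent.H.MP_a38e10_co

theorem result (k : ℕ) (hk : 4 ≤ k) : ∃ (V : Type) (_ : Fintype V) (G : SimpleGraph V),
    G.CliqueFree 5 ∧
    IsLeast {m : ℕ | ∃ c : V → Fin m, ∀ i, G.IsIndepSet {v | c v = i} ∨ G.IsClique {v | c v = i}} k ∧
    G.chromaticNumber = (k + 3 : ℕ) := by
  classical
  obtain ⟨j, rfl⟩ : ∃ j, k = j + 4 := ⟨k - 4, by omega⟩
  obtain ⟨V, _, v0, G, h1, h2, h3, h4, c, hc, -, h5⟩ := tower j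
  have hcf : G.CliqueFree 5 := by
    rw [SimpleGraph.cliqueFree_iff]
    exact ⟨fun f => h1 f fun i j hij => f.toHom.map_adj hij⟩
  refine ⟨V, inferInstance, G, hcf, ⟨⟨fun v => ⟨c v, hc v⟩, fun i => ?_⟩, ?_⟩, ?_⟩
  · rcases h5 i.val with h | h
    · exact Or.inl fun u hu v hv _ => h u v (congrArg Fin.val hu) (congrArg Fin.val hv)
    · exact Or.inr fun u hu v hv huv => h u v (congrArg Fin.val hu) (congrArg Fin.val hv) huv
  · rintro m ⟨d, hd⟩
    by_contra hm
    apply h3
    let A : Finset (Fin m) := Finset.univ.filter fun i => G.IsClique {v | d v = i}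
    let X : Finset V := Finset.univ.filter fun v => d v ∈ A
    have hX : X.card ≤ 4 * A.card := by
      refine Finset.card_le_mul_card_image_of_maps_to (f := d) (fun v hv => (Finset.mem_filter.1 hv).2)
        4 fun i hi => ?_
      by_contra hn
      obtain ⟨t, ht, ht'⟩ := Finset.exists_subset_card_eq (s := X.filter fun v => d v = i) (n := 5)
        (not_le.1 hn)
      refine hcf t ⟨(Finset.mem_filter.1 hi).2.subset fun v hv => ?_, ht'⟩
      exact (Finset.mem_filter.1 (ht hv)).2
    obtain ⟨f, f1, f2⟩ := h4 A.card X hX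
    let C : G.Coloring (Fin (A.card + 3) ⊕ {i // i ∉ A}) := SimpleGraph.Coloring.mk
      (fun v => if h : d v ∈ A then .inl ⟨f v, f1 v (by simp [X, h])⟩ else .inr ⟨d v, h⟩) (by
        intro u v huv
        by_cases hu : d u ∈ A <;> by_cases hv : d v ∈ A <;> simp only [hu, hv, dif_pos, dif_neg,
          not_false_iff]
        · intro e
          exact f2 u (by simp [X, hu]) v (by simp [X, hv]) huv
            (congrArg Fin.val (Sum.inl.inj e))
        · simp
        · simp
        · intro e
          have e' : d u = d v := congrArg Subtype.val (Sum.inr.inj e)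
          rcases hd (d v) with h | h
          · exact h e' rfl huv.ne huv
          · exact hv (by simp [A, h]))
    have := C.colorable
    rw [← col_iff]
    refine this.mono ?_
    have hA : A.card ≤ m := by simpa using A.card_le_univ
    simp [Fintype.card_subtype_compl]
    omega
  · rw [← col_iff] at h2 h3
    exact SimpleGraph.chromaticNumber_eq_iff_colorable_not_colorable.2 ⟨h2, h3⟩

end Pool.Agent.Results.MP_a38e10_co.Gap
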